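import Mathlib
import Pool.Agent.N236.RT.Stm

/-!
# Project RT (helper236), part BEZ (helper595): Bezout bound in the product of two projective lines
-/

set_option autoImplicit false

namespace Pool.Agent.N595.RT

open MvPolynomial Module
open Pool.Agent.N236.RT

theorem bd_iff {R : Type*} [CommSemiring R] {A B : ℕ} {P : Pol R} :
    Bd A B P ↔ degreeOf 0 P ≤ A ∧ degreeOf 1 P ≤ B := by
  unfold Bd
  rw [degreeOf_le_iff, degreeOf_le_iff]
  exact ⟨fun h => ⟨fun m hm => (h m hm).1, fun m hm => (h m hm).2⟩,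
    fun h m hm => ⟨h.1 m hm, h.2 m hm⟩⟩

/-- the exponents in the box -/
def box (A B : ℕ) : Set (Fin 2 →₀ ℕ) := {m | m 0 ≤ A ∧ m 1 ≤ B}

/-- the box is a product -/
noncomputable def boxEquiv (A B : ℕ) : box A B ≃ Fin (A + 1) × Fin (B + 1) where
  toFun m := (⟨m.1 0, Nat.lt_succ_of_le m.2.1⟩, ⟨m.1 1, Nat.lt_succ_of_le m.2.2⟩)
  invFun p := ⟨Finsupp.single 0 p.1.1 + Finsupp.single 1 p.2.1, by
    have h1 := p.1.2
    have h2 := p.2.2
    constructor
    · simp; omega
    · simp; omega⟩
  left_inv m := by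
    apply Subtype.ext
    ext i
    fin_cases i <;> simp
  right_inv p := by
    apply Prod.ext <;> apply Fin.ext <;> simp

noncomputable instance (A B : ℕ) : Fintype (box A B) := Fintype.ofEquiv _ (boxEquiv A B).symm

theorem card_box (A B : ℕ) : Fintype.card (box A B) = (A + 1) * (B + 1) := by
  rw [Fintype.card_congr (boxEquiv A B), Fintype.card_prod, Fintype.card_fin, Fintype.card_fin]

section
variable (k : Type) [Field k]

/-- the polynomials in the box -/
noncomputable def Vs (A B : ℕ) : Submodule k (Pol k) := restrictSupport k (box A B)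

theorem mem_Vs {A B : ℕ} {P : Pol k} : P ∈ Vs k A B ↔ Bd A B P := by
  unfold Vs
  rw [mem_restrictSupport_iff]
  exact ⟨fun h m hm => h hm, fun h m hm => h m hm⟩

instance (A B : ℕ) : FiniteDimensional k (Vs k A B) :=
  Module.Finite.of_basis (basisRestrictSupport k (box A B))

theorem finrank_Vs (A B : ℕ) : finrank k (Vs k A B) = (A + 1) * (B + 1) := by
  unfold Vs
  rw [Module.finrank_eq_card_basis (basisRestrictSupport k (box A B)), card_box]

theorem finrank_map {f : Pol k} (hf : f ≠ 0) (A B : ℕ) :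
    finrank k ((Vs k A B).map (LinearMap.mulLeft k f)) = (A + 1) * (B + 1) := by
  rw [← finrank_Vs k A B]
  refine (LinearEquiv.finrank_eq (Submodule.equivMapOfInjective (LinearMap.mulLeft k f) ?_
    (Vs k A B))).symm
  intro a b hab
  exact mul_left_cancel₀ hf hab

end

/-- the evaluation at the points of `S` -/
noncomputable def Ev (k Ω : Type) [Field k] [Field Ω] [Algebra k Ω] (S : Finset (Ω × Ω)) :
    Pol k →ₗ[k] (S → Ω) :=
  LinearMap.pi (fun s => (aeval ![s.1.1, s.1.2] : Pol k →ₐ[k] Ω).toLinearMap)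

theorem Ev_apply (k Ω : Type) [Field k] [Field Ω] [Algebra k Ω] (S : Finset (Ω × Ω)) (P : Pol k)
    (s : S) : Ev k Ω S P s = ev s.1.1 s.1.2 P := rfl

theorem Ev_monomial (k Ω : Type) [Field k] [Field Ω] [Algebra k Ω] (S : Finset (Ω × Ω))
    (m : Fin 2 →₀ ℕ) : Ev Ω Ω S (monomial m 1) = Ev k Ω S (monomial m 1) := by
  funext s
  rw [Ev_apply, Ev_apply]
  unfold ev
  rw [aeval_monomial, aeval_monomial, map_one, map_one]

open Classical in
/-- the interpolation polynomial -/
noncomputable def Lag {Ω : Type} [Field Ω] (S : Finset (Ω × Ω)) (s : Ω × Ω) : Pol Ω :=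
  ∏ t ∈ S.erase s, if t.1 = s.1 then X 1 - C t.2 else X 0 - C t.1

theorem Lag_bd {Ω : Type} [Field Ω] (S : Finset (Ω × Ω)) (s : Ω × Ω) : Bd S.card S.card (Lag S s) := by
  classical
  have h : ∀ i : Fin 2, degreeOf i (Lag S s) ≤ S.card := by
    intro i
    unfold Lag
    refine (degreeOf_prod_le i _ _).trans ?_
    refine (Finset.sum_le_card_nsmul _ _ 1 ?_).trans ?_
    · intro t _
      have h1 : ∀ (j : Fin 2) (c : Ω), degreeOf i (X j - C c : Pol Ω) ≤ 1 := by
        intro j c
        refine (degreeOf_sub_le i _ _).trans ?_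
        rw [degreeOf_C, degreeOf_X]
        split_ifs <;> simp
      split_ifs
      · exact h1 _ _
      · exact h1 _ _
    · rw [smul_eq_mul, mul_one]
      exact Finset.card_le_card (Finset.erase_subset _ _)
  rw [bd_iff]
  exact ⟨h 0, h 1⟩

theorem Lag_ev_ne {Ω : Type} [Field Ω] (S : Finset (Ω × Ω)) (s t : Ω × Ω) (ht : t ∈ S) (hts : t ≠ s) :
    ev t.1 t.2 (Lag S s) = 0 := by
  classical
  unfold Lag ev
  rw [map_prod]
  apply Finset.prod_eq_zero (Finset.mem_erase.2 ⟨hts, ht⟩)
  split_ifs
  · simp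
  · simp

theorem Lag_ev_self {Ω : Type} [Field Ω] (S : Finset (Ω × Ω)) (s : Ω × Ω) :
    ev s.1 s.2 (Lag S s) ≠ 0 := by
  classical
  unfold Lag ev
  rw [map_prod, Finset.prod_ne_zero_iff]
  intro t ht
  rw [Finset.mem_erase] at ht
  split_ifs with h
  · simp only [map_sub, aeval_X, algHom_C, Matrix.cons_val_one, Matrix.cons_val_zero]
    intro h1
    apply ht.1
    apply Prod.ext h
    simp at h1
    exact (sub_eq_zero.1 h1).symm
  · simp only [map_sub, aeval_X, algHom_C, Matrix.cons_val_zero]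
    intro h1
    apply h
    simp at h1
    exact (sub_eq_zero.1 h1).symm

/-- the span over the larger field of the image of the polynomials in a large box is everything -/
theorem span_top {k Ω : Type} [Field k] [Field Ω] [Algebra k Ω] (S : Finset (Ω × Ω)) {A B : ℕ}
    (hA : S.card ≤ A) (hB : S.card ≤ B) :
    Submodule.span Ω (((Vs k A B).map (Ev k Ω S) : Submodule k (S → Ω)) : Set (S → Ω)) = ⊤ := by
  classical
  set Sp := Submodule.span Ω (((Vs k A B).map (Ev k Ω S) : Submodule k (S → Ω)) : Set (S → Ω)) with hSp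
  have h1 : ∀ P : Pol Ω, Bd A B P → Ev Ω Ω S P ∈ Sp := by
    intro P hP
    rw [P.as_sum, map_sum]
    refine Submodule.sum_mem _ fun m hm => ?_
    have h2 : (monomial m (coeff m P) : Pol Ω) = coeff m P • monomial m 1 := by
      rw [smul_monomial, smul_eq_mul, mul_one]
    rw [h2, map_smul]
    apply Submodule.smul_mem
    rw [Ev_monomial k Ω S m]
    apply Submodule.subset_span
    refine ⟨monomial m 1, ?_, rfl⟩
    show monomial m 1 ∈ Vs k A B
    rw [mem_Vs]
    intro m' hm'
    have h3 := support_monomial_subset hm'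
    rw [Finset.mem_singleton] at h3
    rw [h3]
    exact hP m hm
  have h2 : ∀ s : S, Pi.single s (1 : Ω) ∈ Sp := by
    intro s
    have h3 := h1 (Lag S s.1) (by
      have h4 := Lag_bd S s.1
      intro m hm
      exact ⟨(h4 m hm).1.trans hA, (h4 m hm).2.trans hB⟩)
    have h4 : Ev Ω Ω S (Lag S s.1) = (ev s.1.1 s.1.2 (Lag S s.1)) • Pi.single s (1 : Ω) := by
      funext t
      rw [Ev_apply, Pi.smul_apply, smul_eq_mul]
      by_cases hts : t = s
      · rw [hts, Pi.single_eq_same, mul_one]
      · rw [Pi.single_eq_of_ne hts, mul_zero]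
        exact Lag_ev_ne S s.1 t.1 t.2 (fun h => hts (Subtype.ext h))
    have h5 : Pi.single s (1 : Ω) = (ev s.1.1 s.1.2 (Lag S s.1))⁻¹ • Ev Ω Ω S (Lag S s.1) := by
      rw [h4, smul_smul, inv_mul_cancel₀ (Lag_ev_self S s.1), one_smul]
    rw [h5]
    exact Submodule.smul_mem _ _ h3
  rw [eq_top_iff]
  intro v _
  rw [pi_eq_sum_univ' v]
  refine Submodule.sum_mem _ fun s _ => Submodule.smul_mem _ _ ?_
  exact h2 s

/-- the dimension over the smaller field of a subspace which spans over the larger field -/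
theorem card_le_finrank {k Ω : Type} [Field k] [Field Ω] [Algebra k Ω] (S : Finset (Ω × Ω))
    (I : Submodule k (S → Ω)) [FiniteDimensional k I]
    (hI : Submodule.span Ω (I : Set (S → Ω)) = ⊤) : S.card ≤ finrank k I := by
  classical
  set b := Module.finBasis k I with hb
  have h1 : Submodule.span Ω (Set.range (fun i => (b i : S → Ω))) = ⊤ := by
    rw [eq_top_iff, ← hI]
    apply Submodule.span_le.2
    intro x hx
    have h2 := b.sum_repr ⟨x, hx⟩
    have h3 : x = ∑ i, (b.repr ⟨x, hx⟩ i) • (b i : S → Ω) := by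
      have := congrArg (fun y : I => (y : S → Ω)) h2
      simp only at this
      rw [Submodule.coe_sum] at this
      exact this.symm
    rw [h3]
    refine Submodule.sum_mem _ fun i _ => ?_
    rw [← algebraMap_smul Ω (b.repr ⟨x, hx⟩ i) (b i : S → Ω)]
    exact Submodule.smul_mem _ _ (Submodule.subset_span ⟨i, rfl⟩)
  have h2 := finrank_range_le_card (R := Ω) (fun i => (b i : S → Ω))
  unfold Set.finrank at h2
  rw [h1, finrank_top, Module.finrank_fintype_fun_eq_card, Fintype.card_coe, Fintype.card_fin] at h2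
  exact h2

theorem t_bez : S_BEZ := by
  intro k Ω _ _ _ f g a₁ b₁ a₂ b₂ hfg hf hg S hS
  classical
  have hunit : ∀ (p : Pol k), IsUnit p → (∀ s ∈ S, ev s.1 s.2 p = 0) → S.card = 0 := by
    intro p hp h
    rw [Finset.card_eq_zero, Finset.eq_empty_iff_forall_notMem]
    intro s hs
    have h1 : IsUnit (ev s.1 s.2 p) := hp.map (aeval ![s.1, s.2] : Pol k →ₐ[k] Ω)
    rw [h s hs] at h1
    exact not_isUnit_zero h1
  by_cases hf0 : f = 0
  · rw [hf0, isRelPrime_zero_left] at hfg
    rw [hunit g hfg (fun s hs => (hS s hs).2)]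
    exact Nat.zero_le _
  by_cases hg0 : g = 0
  · rw [hg0, isRelPrime_zero_right] at hfg
    rw [hunit f hfg (fun s hs => (hS s hs).1)]
    exact Nat.zero_le _
  rw [bd_iff] at hf hg
  set α₁ := degreeOf 0 f with hα₁
  set β₁ := degreeOf 1 f with hβ₁
  set α₂ := degreeOf 0 g with hα₂
  set β₂ := degreeOf 1 g with hβ₂
  have hkey : S.card ≤ α₁ * β₂ + α₂ * β₁ := by
    set n := S.card with hn
    set V := Vs k (α₁ + α₂ + n) (β₁ + β₂ + n) with hV
    set U₁ := (Vs k (α₂ + n) (β₂ + n)).map (LinearMap.mulLeft k f) with hU₁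
    set U₂ := (Vs k (α₁ + n) (β₁ + n)).map (LinearMap.mulLeft k g) with hU₂
    have hd1 : finrank k U₁ = (α₂ + n + 1) * (β₂ + n + 1) := finrank_map k hf0 _ _
    have hd2 : finrank k U₂ = (α₁ + n + 1) * (β₁ + n + 1) := finrank_map k hg0 _ _
    have hdV : finrank k V = (α₁ + α₂ + n + 1) * (β₁ + β₂ + n + 1) := finrank_Vs k _ _
    have hfin1 : FiniteDimensional k U₁ := by rw [hU₁]; infer_instance
    have hfin2 : FiniteDimensional k U₂ := by rw [hU₂]; infer_instance
    have hinf : U₁ ⊓ U₂ ≤ (Vs k n n).map (LinearMap.mulLeft k (f * g)) := by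
      rintro h ⟨⟨u, hu, hu'⟩, ⟨w, hw, hw'⟩⟩
      have e1 : f * u = h := hu'
      have e2 : g * w = h := hw'
      by_cases hh : h = 0
      · rw [hh]; exact Submodule.zero_mem _
      have hdvd : g ∣ f * u := by rw [e1, ← e2]; exact dvd_mul_right _ _
      obtain ⟨t, ht⟩ := hfg.symm.dvd_of_dvd_mul_left hdvd
      have e3 : h = f * g * t := by rw [← e1, ht]; ring
      have ht0 : t ≠ 0 := by
        rintro rfl
        apply hh
        rw [e3, mul_zero]
      have hu0 : u ≠ 0 := by
        rintro rfl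
        apply hh
        rw [← e1, mul_zero]
      refine ⟨t, ?_, e3.symm⟩
      have hu2 : Bd (α₂ + n) (β₂ + n) u := (mem_Vs k).1 hu
      show t ∈ Vs k n n
      rw [mem_Vs, bd_iff]
      rw [bd_iff] at hu2
      have d0 : degreeOf 0 u = α₂ + degreeOf 0 t := by
        rw [ht, degreeOf_mul_eq hg0 ht0]
      have d1 : degreeOf 1 u = β₂ + degreeOf 1 t := by
        rw [ht, degreeOf_mul_eq hg0 ht0]
      omega
    have hinf2 : finrank k (U₁ ⊓ U₂ : Submodule k (Pol k)) ≤ (n + 1) * (n + 1) := by
      rw [← finrank_map k (mul_ne_zero hf0 hg0) n n]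
      exact Submodule.finrank_mono hinf
    have hsup := Submodule.finrank_sup_add_finrank_inf_eq U₁ U₂
    have hUV : U₁ ⊔ U₂ ≤ V := by
      apply sup_le
      · rintro _ ⟨u, hu, rfl⟩
        have hu2 : Bd (α₂ + n) (β₂ + n) u := (mem_Vs k).1 hu
        rw [bd_iff] at hu2
        show f * u ∈ Vs k _ _
        rw [mem_Vs, bd_iff]
        have e1 := degreeOf_mul_le 0 f u
        have e2 := degreeOf_mul_le 1 f u
        omega
      · rintro _ ⟨u, hu, rfl⟩
        have hu2 : Bd (α₁ + n) (β₁ + n) u := (mem_Vs k).1 hu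
        rw [bd_iff] at hu2
        show g * u ∈ Vs k _ _
        rw [mem_Vs, bd_iff]
        have e1 := degreeOf_mul_le 0 g u
        have e2 := degreeOf_mul_le 1 g u
        omega
    set L : V →ₗ[k] (S → Ω) := (Ev k Ω S).comp V.subtype with hL
    have hrange : LinearMap.range L = V.map (Ev k Ω S) := by
      rw [hL, LinearMap.range_comp, Submodule.range_subtype]
    have hrn := LinearMap.finrank_range_add_finrank_ker L
    have hker : finrank k (U₁ ⊔ U₂ : Submodule k (Pol k)) ≤ finrank k (LinearMap.ker L) := by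
      rw [← LinearEquiv.finrank_eq (Submodule.comapSubtypeEquivOfLe hUV)]
      apply Submodule.finrank_mono
      intro x hx
      have hx' : (x : Pol k) ∈ U₁ ⊔ U₂ := hx
      rw [LinearMap.mem_ker]
      show Ev k Ω S (x : Pol k) = 0
      rw [Submodule.mem_sup] at hx'
      obtain ⟨_, ⟨u, hu, rfl⟩, _, ⟨w, hw, rfl⟩, hxx⟩ := hx'
      rw [← hxx, map_add]
      have z1 : Ev k Ω S (LinearMap.mulLeft k f u) = 0 := by
        funext s
        rw [Ev_apply]
        show ev s.1.1 s.1.2 (f * u) = 0
        unfold ev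
        rw [map_mul]
        have := (hS s.1 s.2).1
        unfold ev at this
        rw [this, zero_mul]
      have z2 : Ev k Ω S (LinearMap.mulLeft k g w) = 0 := by
        funext s
        rw [Ev_apply]
        show ev s.1.1 s.1.2 (g * w) = 0
        unfold ev
        rw [map_mul]
        have := (hS s.1 s.2).2
        unfold ev at this
        rw [this, zero_mul]
      rw [z1, z2, add_zero]
    have hcard : S.card ≤ finrank k (LinearMap.range L) := by
      apply card_le_finrank S
      rw [hrange]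
      exact span_top S (by omega) (by omega)
    rw [hdV] at hrn
    rw [hd1, hd2] at hsup
    -- arithmetic
    nlinarith
  calc S.card ≤ α₁ * β₂ + α₂ * β₁ := hkey
    _ ≤ a₁ * b₂ + a₂ * b₁ := Nat.add_le_add (Nat.mul_le_mul hf.1 hg.2) (Nat.mul_le_mul hg.1 hf.2)

end Pool.Agent.N595.RT
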